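import Pool.Agent.Q276.DA.Stm

set_option autoImplicit false

open Complex MeasureTheory Set

namespace Pool.Agent.Q198.DA

open Pool.Agent.Q276.DA

/-- the difference of two exponentials. -/
theorem norm_exp_sub (p q : ℂ) (M : ℝ) (hp : p.re ≤ M) (hq : q.re ≤ M) :
    ‖cexp p - cexp q‖ ≤ Real.exp M * ‖p - q‖ := by
  have hconv : Convex ℝ {z : ℂ | z.re ≤ M} := convex_halfSpace_re_le M
  refine hconv.norm_image_sub_le_of_norm_hasDerivWithin_le (f := cexp) (f' := cexp) ?_ ?_ hq hp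
  · intro z _
    exact (Complex.hasDerivAt_exp z).hasDerivWithinAt
  · intro z hz
    rw [Complex.norm_exp]
    exact Real.exp_le_exp.mpr hz

theorem int_pos (c η : ℝ) (hc : 0 < c) :
    ∫ v in (0 : ℝ)..η, v ^ 3 * Real.exp (-c * v ^ 2) ≤ 1 / (2 * c ^ 2) := by
  have hF : ∀ v : ℝ, HasDerivAt (fun v : ℝ => -(v ^ 2 + 1 / c) * Real.exp (-c * v ^ 2) / (2 * c))
      (v ^ 3 * Real.exp (-c * v ^ 2)) v := by
    intro v
    have h1 : HasDerivAt (fun v : ℝ => v ^ 2) (2 * v) v := by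
      simpa using hasDerivAt_pow 2 v
    have h2 : HasDerivAt (fun v : ℝ => Real.exp (-c * v ^ 2))
        (Real.exp (-c * v ^ 2) * (-c * (2 * v))) v := (h1.const_mul (-c)).exp
    have h3 : HasDerivAt (fun v : ℝ => -(v ^ 2 + 1 / c)) (-(2 * v)) v := (h1.add_const (1 / c)).neg
    refine ((h3.mul h2).div_const (2 * c)).congr_deriv ?_
    field_simp
    ring
  rw [intervalIntegral.integral_eq_sub_of_hasDerivAt (fun v _ => hF v)]
  · have h0 : 0 ≤ (η ^ 2 + 1 / c) * Real.exp (-c * η ^ 2) / (2 * c) := by positivity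
    have h1 : -(0 ^ 2 + 1 / c) * Real.exp (-c * 0 ^ 2) / (2 * c) = -(1 / (2 * c ^ 2)) := by
      simp only [ne_eq, OfNat.ofNat_ne_zero, not_false_eq_true, zero_pow, mul_zero, Real.exp_zero,
        mul_one, zero_add]
      field_simp
    rw [h1]
    have h2 : -(η ^ 2 + 1 / c) * Real.exp (-c * η ^ 2) / (2 * c) =
        -((η ^ 2 + 1 / c) * Real.exp (-c * η ^ 2) / (2 * c)) := by ring
    rw [h2]
    linarith
  · exact (by fun_prop : Continuous fun v : ℝ => v ^ 3 * Real.exp (-c * v ^ 2)).intervalIntegrable _ _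

theorem int_abs (c η : ℝ) (hc : 0 < c) (hη : 0 ≤ η) :
    ∫ v in (-η)..η, |v| ^ 3 * Real.exp (-c * v ^ 2) ≤ 1 / c ^ 2 := by
  have hcont : Continuous fun v : ℝ => |v| ^ 3 * Real.exp (-c * v ^ 2) := by fun_prop
  have h1 : ∫ v in (0 : ℝ)..η, |v| ^ 3 * Real.exp (-c * v ^ 2) ≤ 1 / (2 * c ^ 2) := by
    have : ∫ v in (0 : ℝ)..η, |v| ^ 3 * Real.exp (-c * v ^ 2) =
        ∫ v in (0 : ℝ)..η, v ^ 3 * Real.exp (-c * v ^ 2) := by
      refine intervalIntegral.integral_congr ?_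
      intro v hv
      rw [uIcc_of_le hη] at hv
      simp only [abs_of_nonneg hv.1]
    rw [this]
    exact int_pos c η hc
  have h2 : ∫ v in (-η)..0, |v| ^ 3 * Real.exp (-c * v ^ 2) =
      ∫ v in (0 : ℝ)..η, |v| ^ 3 * Real.exp (-c * v ^ 2) := by
    have h3 := intervalIntegral.integral_comp_neg (a := (0 : ℝ)) (b := η)
      (fun v : ℝ => |v| ^ 3 * Real.exp (-c * v ^ 2))
    rw [neg_zero] at h3
    rw [← h3]
    simp only [abs_neg, neg_sq]
  rw [← intervalIntegral.integral_add_adjacent_intervals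
    (hcont.intervalIntegrable (-η) 0) (hcont.intervalIntegrable 0 η), h2]
  have h3 : 1 / c ^ 2 = 1 / (2 * c ^ 2) + 1 / (2 * c ^ 2) := by field_simp; norm_num
  rw [h3]
  linarith

/-- the tail of a Gaussian integral. -/
theorem tail (b : ℂ) (η : ℝ) (hb : 0 < b.re) (hη : 0 < η) :
    ‖∫ v in Ioi η, cexp (-b * (v : ℂ) ^ 2)‖ ≤ 1 / (b.re * η) := by
  have ha : -(b.re * η) < 0 := by nlinarith [mul_pos hb hη]
  have h1 : ‖∫ v in Ioi η, cexp (-b * (v : ℂ) ^ 2)‖ ≤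
      ∫ v in Ioi η, Real.exp (-(b.re * η) * v) := by
    refine norm_integral_le_of_norm_le (integrableOn_exp_mul_Ioi ha η) ?_
    refine (ae_restrict_iff' measurableSet_Ioi).mpr (Filter.Eventually.of_forall ?_)
    intro v hv
    rw [norm_cexp_neg_mul_sq]
    have hv' : η < v := hv
    refine Real.exp_le_exp.mpr ?_
    have : b.re * η * v ≤ b.re * v ^ 2 := by
      have : 0 ≤ b.re * (v * (v - η)) :=
        mul_nonneg hb.le (mul_nonneg (hη.le.trans hv'.le) (by linarith))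
      nlinarith
    linarith
  refine h1.trans ?_
  rw [integral_exp_mul_Ioi ha]
  have h2 : Real.exp (-(b.re * η) * η) ≤ 1 := Real.exp_le_one_iff.mpr (by nlinarith)
  have h3 : -Real.exp (-(b.re * η) * η) / -(b.re * η) = Real.exp (-(b.re * η) * η) / (b.re * η) := by
    rw [neg_div_neg_eq]
  rw [h3]
  exact div_le_div_of_nonneg_right h2 (by positivity)

theorem gauss_split (b : ℂ) (η : ℝ) (hb : 0 < b.re) (hη : 0 < η) :
    ‖(∫ v : ℝ, cexp (-b * (v : ℂ) ^ 2)) - ∫ v in (-η)..η, cexp (-b * (v : ℂ) ^ 2)‖ ≤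
      2 / (b.re * η) := by
  have hI := integrable_cexp_neg_mul_sq hb
  have h1 : (∫ v in Iic η, cexp (-b * (v : ℂ) ^ 2)) + ∫ v in Ioi η, cexp (-b * (v : ℂ) ^ 2) =
      ∫ v : ℝ, cexp (-b * (v : ℂ) ^ 2) :=
    intervalIntegral.integral_Iic_add_Ioi hI.integrableOn hI.integrableOn
  have h2 : (∫ v in Iic η, cexp (-b * (v : ℂ) ^ 2)) - ∫ v in Iic (-η), cexp (-b * (v : ℂ) ^ 2) =
      ∫ v in (-η)..η, cexp (-b * (v : ℂ) ^ 2) :=
    intervalIntegral.integral_Iic_sub_Iic hI.integrableOn hI.integrableOn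
  have h3 : ∫ v in Iic (-η), cexp (-b * (v : ℂ) ^ 2) = ∫ v in Ioi η, cexp (-b * (v : ℂ) ^ 2) := by
    have := integral_comp_neg_Iic (-η) (fun v : ℝ => cexp (-b * (v : ℂ) ^ 2))
    rw [neg_neg] at this
    rw [← this]
    refine integral_congr_ae (Filter.Eventually.of_forall ?_)
    intro v
    simp only [ofReal_neg, neg_sq]
  have h4 := tail b η hb hη
  have h5 : (∫ v : ℝ, cexp (-b * (v : ℂ) ^ 2)) - ∫ v in (-η)..η, cexp (-b * (v : ℂ) ^ 2) =
      (∫ v in Ioi η, cexp (-b * (v : ℂ) ^ 2)) + ∫ v in Ioi η, cexp (-b * (v : ℂ) ^ 2) := by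
    rw [← h1, ← h2, h3]; ring
  rw [h5]
  refine (norm_add_le _ _).trans ?_
  have : 2 / (b.re * η) = 1 / (b.re * η) + 1 / (b.re * η) := by ring
  rw [this]
  exact add_le_add h4 h4

theorem gauss_norm (b : ℂ) (hb : 0 < b.re) :
    ‖∫ v : ℝ, cexp (-b * (v : ℂ) ^ 2)‖ ^ 2 = Real.pi / ‖b‖ := by
  rw [integral_gaussian_complex hb, ← norm_pow]
  have h1 : (((Real.pi : ℂ) / b) ^ (1 / 2 : ℂ)) ^ 2 = (Real.pi : ℂ) / b := by
    have h : (1 / 2 : ℂ) = ((2 : ℕ) : ℂ)⁻¹ := by norm_num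
    rw [h]
    exact Complex.cpow_nat_inv_pow _ (by norm_num)
  rw [h1, norm_div, Complex.norm_real, Real.norm_of_nonneg Real.pi_pos.le]

theorem far_small (X : ℝ) (hX : 3 * 10 ^ 10 ≤ X) :
    X * Real.exp (-(5 / 10 ^ 8) * X) ≤ 1 / X := by
  have hX0 : 0 < X := by linarith
  set y : ℝ := 5 / 10 ^ 8 * X with hy
  have hy0 : 0 ≤ y := by positivity
  have h1 : y ^ 10 / (Nat.factorial 10 : ℝ) ≤ Real.exp y := Real.pow_div_factorial_le_exp y hy0 10
  have h2 : X ^ 2 ≤ Real.exp y := by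
    refine le_trans ?_ h1
    have h3 : (Nat.factorial 10 : ℝ) = 3628800 := by norm_num [Nat.factorial]
    rw [h3, le_div_iff₀ (by norm_num), hy]
    have h4 : (5 / 10 ^ 8 * X) ^ 10 = (5 / 10 ^ 8) ^ 10 * X ^ 8 * X ^ 2 := by ring
    rw [h4]
    have h5 : (3 * 10 ^ 10 : ℝ) ^ 8 ≤ X ^ 8 := pow_le_pow_left₀ (by norm_num) hX 8
    have h6 : (3628800 : ℝ) ≤ (5 / 10 ^ 8) ^ 10 * X ^ 8 := by
      refine le_trans ?_ (mul_le_mul_of_nonneg_left h5 (by positivity))
      norm_num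
    nlinarith [sq_nonneg X]
  have h7 : Real.exp (-(5 / 10 ^ 8) * X) = (Real.exp y)⁻¹ := by
    rw [← Real.exp_neg, hy]; ring_nf
  rw [h7, ← div_eq_mul_inv, div_le_div_iff₀ (Real.exp_pos y) hX0]
  nlinarith

theorem t_LAP : S_LAP := by
  intro K a X v1 v2 hK ha1 ha2 hloc hv1 hv2 hdrop hX hX2
  have hX0 : 0 < X := by linarith
  set b : ℂ := (X : ℂ) * a / 2 with hb
  have hbre : b.re = X * a.re / 2 := by
    rw [hb]
    have : (X : ℂ) * a / 2 = ((X / 2 : ℝ) : ℂ) * a := by push_cast; ring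
    rw [this, Complex.re_ofReal_mul]; ring
  have hbre1 : 23 / 200 * X ≤ b.re := by rw [hbre]; nlinarith
  have hbre0 : 0 < b.re := by linarith
  have hbn : ‖b‖ ≤ 20 * X := by
    rw [hb, norm_div, norm_mul, Complex.norm_real, Real.norm_of_nonneg hX0.le]
    simp only [Complex.norm_ofNat]
    nlinarith
  have hbn0 : 0 < ‖b‖ := lt_of_lt_of_le hbre0 (Complex.re_le_norm b)
  intro hzero
  -- the pieces
  have hfc : Continuous fun v : ℝ => cexp ((X : ℂ) * K v) := by fun_prop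
  have hgc : Continuous fun v : ℝ => cexp (-b * (v : ℂ) ^ 2) := by fun_prop
  have hspl : (∫ v in v1..(-(1 / 1000 : ℝ)), cexp ((X : ℂ) * K v)) +
      (∫ v in (-(1 / 1000 : ℝ))..(1 / 1000), cexp ((X : ℂ) * K v)) +
      (∫ v in (1 / 1000 : ℝ)..v2, cexp ((X : ℂ) * K v)) = 0 := by
    rw [intervalIntegral.integral_add_adjacent_intervals (hfc.intervalIntegrable _ _)
      (hfc.intervalIntegrable _ _), intervalIntegral.integral_add_adjacent_intervals
      (hfc.intervalIntegrable _ _) (hfc.intervalIntegrable _ _), hzero]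
  have hfar : ∀ v : ℝ, v1 ≤ v → v ≤ v2 → 1 / 1000 ≤ |v| →
      ‖cexp ((X : ℂ) * K v)‖ ≤ Real.exp (-(5 / 10 ^ 8) * X) := by
    intro v h1 h2 h3
    rw [Complex.norm_exp, Complex.re_ofReal_mul]
    refine Real.exp_le_exp.mpr ?_
    have := hdrop v h1 h2 h3
    nlinarith
  have hA : ‖∫ v in v1..(-(1 / 1000 : ℝ)), cexp ((X : ℂ) * K v)‖ ≤
      Real.exp (-(5 / 10 ^ 8) * X) * (-(1 / 1000) - v1) := by
    have h := intervalIntegral.norm_integral_le_of_norm_le_const (a := v1) (b := -(1 / 1000 : ℝ))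
      (f := fun v : ℝ => cexp ((X : ℂ) * K v)) (C := Real.exp (-(5 / 10 ^ 8) * X)) ?_
    · rwa [abs_of_nonneg (by linarith : (0 : ℝ) ≤ -(1 / 1000) - v1)] at h
    · intro v hv
      rw [uIoc_of_le (by linarith)] at hv
      refine hfar v hv.1.le (by linarith [hv.2]) ?_
      rw [abs_of_nonpos (by linarith [hv.2])]
      linarith [hv.2]
  have hB : ‖∫ v in (1 / 1000 : ℝ)..v2, cexp ((X : ℂ) * K v)‖ ≤
      Real.exp (-(5 / 10 ^ 8) * X) * (v2 - 1 / 1000) := by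
    have h := intervalIntegral.norm_integral_le_of_norm_le_const (a := (1 / 1000 : ℝ)) (b := v2)
      (f := fun v : ℝ => cexp ((X : ℂ) * K v)) (C := Real.exp (-(5 / 10 ^ 8) * X)) ?_
    · rwa [abs_of_nonneg (by linarith : (0 : ℝ) ≤ v2 - 1 / 1000)] at h
    · intro v hv
      rw [uIoc_of_le (by linarith)] at hv
      refine hfar v (by linarith [hv.1]) hv.2 ?_
      rw [abs_of_nonneg (by linarith [hv.1])]
      linarith [hv.1]
  have hC : ‖(∫ v in (-(1 / 1000 : ℝ))..(1 / 1000), cexp ((X : ℂ) * K v)) -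
      ∫ v in (-(1 / 1000 : ℝ))..(1 / 1000), cexp (-b * (v : ℂ) ^ 2)‖ ≤ 12000 / X := by
    rw [← intervalIntegral.integral_sub (hfc.intervalIntegrable _ _) (hgc.intervalIntegrable _ _)]
    have hcont : Continuous fun v : ℝ =>
        50 * X * (|v| ^ 3 * Real.exp (-(65 / 1000 * X) * v ^ 2)) := by fun_prop
    refine (intervalIntegral.norm_integral_le_of_norm_le (by norm_num)
      (g := fun v : ℝ => 50 * X * (|v| ^ 3 * Real.exp (-(65 / 1000 * X) * v ^ 2))) ?_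
      (hcont.intervalIntegrable _ _)).trans ?_
    · refine Filter.Eventually.of_forall ?_
      intro v hv
      have hv1 : |v| ≤ 1 / 1000 := abs_le.mpr ⟨hv.1.le, hv.2⟩
      have hl := hloc v hv1
      have hre := (Complex.abs_re_le_norm (K v + a * (v : ℂ) ^ 2 / 2)).trans hl
      have hre2 : (K v + a * (v : ℂ) ^ 2 / 2).re = (K v).re + a.re * v ^ 2 / 2 := by
        have : a * (v : ℂ) ^ 2 / 2 = ((v ^ 2 / 2 : ℝ) : ℂ) * a := by push_cast; ring
        rw [Complex.add_re, this, Complex.re_ofReal_mul]; ring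
      rw [hre2] at hre
      have h3 : |v| ^ 3 ≤ 1 / 1000 * v ^ 2 := by
        have : |v| ^ 3 = |v| * v ^ 2 := by rw [← sq_abs v]; ring
        rw [this]
        exact mul_le_mul_of_nonneg_right hv1 (sq_nonneg v)
      have h4 : (K v).re ≤ -(65 / 1000) * v ^ 2 := by
        have := (abs_le.mp hre).2
        nlinarith [sq_nonneg v]
      have hp : ((X : ℂ) * K v).re ≤ -(65 / 1000 * X) * v ^ 2 := by
        rw [Complex.re_ofReal_mul]
        nlinarith
      have hq : (-b * (v : ℂ) ^ 2).re ≤ -(65 / 1000 * X) * v ^ 2 := by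
        have : -b * (v : ℂ) ^ 2 = ((v ^ 2 : ℝ) : ℂ) * (-b) := by push_cast; ring
        rw [this, Complex.re_ofReal_mul, Complex.neg_re]
        nlinarith [sq_nonneg v]
      refine (norm_exp_sub _ _ _ hp hq).trans ?_
      have h5 : (X : ℂ) * K v - -b * (v : ℂ) ^ 2 = (X : ℂ) * (K v + a * (v : ℂ) ^ 2 / 2) := by
        rw [hb]; ring
      rw [h5, norm_mul, Complex.norm_real, Real.norm_of_nonneg hX0.le]
      have h6 := mul_le_mul_of_nonneg_left hl hX0.le
      have h7 := mul_le_mul_of_nonneg_left h6 (Real.exp_pos (-(65 / 1000 * X) * v ^ 2)).le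
      refine h7.trans (le_of_eq ?_)
      ring
    · rw [intervalIntegral.integral_const_mul]
      have h1 := int_abs (65 / 1000 * X) (1 / 1000) (by positivity) (by norm_num)
      have h2 := mul_le_mul_of_nonneg_left h1 (by positivity : 0 ≤ 50 * X)
      refine h2.trans ?_
      rw [show 50 * X * (1 / (65 / 1000 * X) ^ 2) = 50 / (65 / 1000) ^ 2 / X by field_simp]
      exact div_le_div_of_nonneg_right (by norm_num) hX0.le
  have hD := gauss_split b (1 / 1000) hbre0 (by norm_num)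
  have hE := gauss_norm b hbre0
  set I0 := ∫ v : ℝ, cexp (-b * (v : ℂ) ^ 2) with hI0
  set I1 := ∫ v in (-(1 / 1000 : ℝ))..(1 / 1000), cexp (-b * (v : ℂ) ^ 2) with hI1
  set J1 := ∫ v in (-(1 / 1000 : ℝ))..(1 / 1000), cexp ((X : ℂ) * K v) with hJ1
  set J0 := ∫ v in v1..(-(1 / 1000 : ℝ)), cexp ((X : ℂ) * K v) with hJ0
  set J2 := ∫ v in (1 / 1000 : ℝ)..v2, cexp ((X : ℂ) * K v) with hJ2
  have hsum : I0 = (I0 - I1) - (J1 - I1) - J0 - J2 := by
    have : J1 = -J0 - J2 := by linear_combination hspl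
    rw [this]; ring
  have hDb : 2 / (b.re * (1 / 1000)) ≤ 17400 / X := by
    rw [div_le_div_iff₀ (by positivity) hX0]
    nlinarith
  have hfs := far_small X hX
  have hAB : ‖J0‖ + ‖J2‖ ≤ 1 / X := by
    have h1 : Real.exp (-(5 / 10 ^ 8) * X) * (-(1 / 1000) - v1) +
        Real.exp (-(5 / 10 ^ 8) * X) * (v2 - 1 / 1000) ≤ X * Real.exp (-(5 / 10 ^ 8) * X) := by
      have h2 := Real.exp_pos (-(5 / 10 ^ 8) * X)
      nlinarith
    linarith
  have hnorm : ‖I0‖ ≤ 29401 / X := by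
    have h1 : ‖I0‖ ≤ ‖I0 - I1‖ + ‖J1 - I1‖ + ‖J0‖ + ‖J2‖ := by
      calc ‖I0‖ = ‖(I0 - I1) - (J1 - I1) - J0 - J2‖ := by rw [← hsum]
        _ ≤ ‖(I0 - I1) - (J1 - I1) - J0‖ + ‖J2‖ := norm_sub_le _ _
        _ ≤ ‖(I0 - I1) - (J1 - I1)‖ + ‖J0‖ + ‖J2‖ := by
            have := norm_sub_le ((I0 - I1) - (J1 - I1)) J0
            linarith
        _ ≤ ‖I0 - I1‖ + ‖J1 - I1‖ + ‖J0‖ + ‖J2‖ := by
            have := norm_sub_le (I0 - I1) (J1 - I1)
            linarith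
    have h2 : 29401 / X = 17400 / X + 12000 / X + 1 / X := by ring
    rw [h2]
    linarith
  have hlow : 3 / 20 / X ≤ ‖I0‖ ^ 2 := by
    rw [hE]
    rw [div_div, div_le_div_iff₀ (by positivity) hbn0]
    have := Real.pi_gt_three
    nlinarith
  have hup : ‖I0‖ ^ 2 ≤ (29401 / X) ^ 2 := pow_le_pow_left₀ (norm_nonneg _) hnorm 2
  have hfin : 3 / 20 / X ≤ (29401 / X) ^ 2 := hlow.trans hup
  rw [div_pow, div_div, div_le_div_iff₀ (by positivity) (by positivity)] at hfin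
  have : 3 * X ^ 2 ≤ 29401 ^ 2 * (20 * X) := hfin
  have h8 : 3 * X ≤ 29401 ^ 2 * 20 := by
    by_contra hc
    push Not at hc
    nlinarith
  norm_num at h8
  linarith

end Pool.Agent.Q198.DA
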