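import Pool.Agent.Q276.DA.Stm

set_option autoImplicit false

open Complex MeasureTheory Set Metric

namespace Pool.Agent.Q198.DA

open Pool.Agent.Q276.DA

/-- integration of a power bound, one side. -/
theorem pow_bound_aux (F F' : ℝ → ℂ) (C δ : ℝ) (n : ℕ) (h0 : F 0 = 0)
    (hd : ∀ v, 0 ≤ v → v ≤ δ → HasDerivAt F (F' v) v)
    (hb : ∀ v, 0 ≤ v → v ≤ δ → ‖F' v‖ ≤ C * ((n : ℝ) + 1) * v ^ n) (v : ℝ) (hv : 0 ≤ v) (hv2 : v ≤ δ) :
    ‖F v‖ ≤ C * v ^ (n + 1) := by
  refine image_norm_le_of_norm_deriv_right_le_deriv_boundary (f := F) (f' := F') (a := 0) (b := δ)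
    (B := fun v => C * v ^ (n + 1)) (B' := fun v => C * ((n : ℝ) + 1) * v ^ n)
    (fun x hx => (hd x hx.1 hx.2).continuousAt.continuousWithinAt)
    (fun x hx => (hd x hx.1 hx.2.le).hasDerivWithinAt) ?_ ?_
    (fun x hx => hb x hx.1 hx.2.le) ⟨hv, hv2⟩
  · simp [h0]
  · intro x
    have h := (hasDerivAt_pow (n + 1) x).const_mul C
    refine h.congr_deriv ?_
    rw [Nat.add_sub_cancel]
    push_cast
    ring

theorem pow_bound (F F' : ℝ → ℂ) (C δ : ℝ) (n : ℕ) (h0 : F 0 = 0)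
    (hd : ∀ v, |v| ≤ δ → HasDerivAt F (F' v) v)
    (hb : ∀ v, |v| ≤ δ → ‖F' v‖ ≤ C * ((n : ℝ) + 1) * |v| ^ n) (v : ℝ) (hv : |v| ≤ δ) :
    ‖F v‖ ≤ C * |v| ^ (n + 1) := by
  rcases le_total 0 v with h | h
  · rw [abs_of_nonneg h] at hv ⊢
    refine pow_bound_aux F F' C δ n h0 (fun x h1 h2 => hd x (by rwa [abs_of_nonneg h1]))
      (fun x h1 h2 => ?_) v h hv
    have := hb x (by rwa [abs_of_nonneg h1])
    rwa [abs_of_nonneg h1] at this
  · rw [abs_of_nonpos h] at hv ⊢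
    have h1 := pow_bound_aux (fun x => F (-x)) (fun x => -F' (-x)) C δ n (by simpa using h0)
      (fun x h1 h2 => ?_) (fun x h1 h2 => ?_) (-v) (by linarith) hv
    · simpa using h1
    · have h3 := hd (-x) (by rwa [abs_neg, abs_of_nonneg h1])
      have h4 := h3.scomp x (hasDerivAt_neg x)
      simpa [Function.comp_def] using h4
    · have := hb (-x) (by rwa [abs_neg, abs_of_nonneg h1])
      rw [abs_neg, abs_of_nonneg h1] at this
      rwa [norm_neg]

/-- the bound of `e ρ` near `w0`. -/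
theorem e_bound (hB : S_BND) (hM : S_MODE) (ρ u0 : ℝ) (hρ : 0 < ρ) (hρ2 : ρ ≤ 29 / 10)
    (hu : 2 / 5 ≤ u0) (hu2 : u0 ≤ 21 / 20) (w : ℂ) (hw : ‖w - (1 + (u0 : ℂ) * I)‖ ≤ 35 / 100) :
    ‖e ρ w‖ ≤ 8 := by
  have hre : 65 / 100 ≤ w.re := by
    have h1 := (Complex.abs_re_le_norm (w - (1 + (u0 : ℂ) * I))).trans hw
    have h2 : (w - (1 + (u0 : ℂ) * I)).re = w.re - 1 := by simp
    rw [h2] at h1
    have := (abs_le.mp h1).1
    linarith
  have hw0 : ‖(1 + (u0 : ℂ) * I)‖ ^ 2 = 1 + u0 ^ 2 := by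
    rw [Complex.sq_norm, Complex.normSq_apply]
    simp
    ring
  have hw0n := norm_nonneg (1 + (u0 : ℂ) * I)
  have hw0l : 1077 / 1000 ≤ ‖(1 + (u0 : ℂ) * I)‖ := by
    by_contra hc
    push Not at hc
    nlinarith
  have hw0u : ‖(1 + (u0 : ℂ) * I)‖ ≤ 145 / 100 := by
    by_contra hc
    push Not at hc
    nlinarith
  have hwl : 727 / 1000 ≤ ‖w‖ := by
    have h1 := norm_sub_norm_le (1 + (u0 : ℂ) * I) w
    rw [norm_sub_rev] at h1
    linarith
  have hwu : ‖w‖ ≤ 180 / 100 := by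
    have h1 := norm_sub_norm_le w (1 + (u0 : ℂ) * I)
    linarith
  have hw2l : 528 / 1000 ≤ ‖w‖ ^ 2 := by nlinarith
  have hw2u : ‖w‖ ^ 2 ≤ 324 / 100 := by nlinarith [norm_nonneg w]
  have hwne : w ≠ 0 := by
    intro h
    rw [h] at hre
    simp at hre
    linarith
  have hρne : (ρ : ℂ) ≠ 0 := by exact_mod_cast hρ.ne'
  have hzre : 0 < ((ρ : ℂ) * w).re := by
    rw [Complex.re_ofReal_mul]; positivity
  have hpi := Real.pi_gt_d4
  have hpi' := Real.pi_lt_d4
  have hpi2 : Real.pi ^ 2 ≤ 987 / 100 := by nlinarith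
  have hpi2' : 986 / 100 ≤ Real.pi ^ 2 := by nlinarith
  -- the argument of the transformed series
  have hX : (4 * (Real.pi : ℂ) ^ 2 / ((ρ : ℂ) * w)).re = 4 * Real.pi ^ 2 * w.re / (ρ * ‖w‖ ^ 2) := by
    have h1 : 4 * (Real.pi : ℂ) ^ 2 / ((ρ : ℂ) * w) =
        ((4 * Real.pi ^ 2 / ρ : ℝ) : ℂ) * w⁻¹ := by
      push_cast
      field_simp
    rw [h1, Complex.re_ofReal_mul, Complex.inv_re, ← Complex.sq_norm]
    field_simp
  set X := (4 * (Real.pi : ℂ) ^ 2 / ((ρ : ℂ) * w)).re with hXdef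
  have hX27 : 27 / 10 ≤ X := by
    rw [hX, div_le_div_iff₀ (by norm_num) (by positivity)]
    have h1 : ρ * ‖w‖ ^ 2 ≤ 29 / 10 * (324 / 100) := mul_le_mul hρ2 hw2u (by positivity) (by norm_num)
    nlinarith
  have hE := (hB (4 * (Real.pi : ℂ) ^ 2 / ((ρ : ℂ) * w))).2.2.1 hX27
  rw [← hXdef] at hE
  have hMo := hM ((ρ : ℂ) * w) hzre
  have hform : e ρ w = (Real.pi : ℂ) ^ 2 / (6 * w ^ 2) - (ρ : ℂ) / (2 * w) + (ρ : ℂ) ^ 2 / 24 -
      4 * (Real.pi : ℂ) ^ 2 / w ^ 2 * E (4 * (Real.pi : ℂ) ^ 2 / ((ρ : ℂ) * w)) := by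
    unfold e
    rw [hMo]
    field_simp
  have hT1 : ‖(Real.pi : ℂ) ^ 2 / (6 * w ^ 2)‖ ≤ 312 / 100 := by
    rw [norm_div, norm_mul, norm_pow, norm_pow, Complex.norm_real,
      Real.norm_of_nonneg Real.pi_pos.le]
    simp only [Complex.norm_ofNat]
    rw [div_le_iff₀ (by positivity)]
    nlinarith
  have hT2 : ‖(ρ : ℂ) / (2 * w)‖ ≤ 2 := by
    rw [norm_div, norm_mul, Complex.norm_real, Real.norm_of_nonneg hρ.le]
    simp only [Complex.norm_ofNat]
    rw [div_le_iff₀ (by positivity)]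
    nlinarith
  have hT3 : ‖(ρ : ℂ) ^ 2 / 24‖ ≤ 36 / 100 := by
    rw [norm_div, norm_pow, Complex.norm_real, Real.norm_of_nonneg hρ.le]
    simp only [Complex.norm_ofNat]
    rw [div_le_iff₀ (by positivity)]
    nlinarith
  have hT4 : ‖4 * (Real.pi : ℂ) ^ 2 / w ^ 2 * E (4 * (Real.pi : ℂ) ^ 2 / ((ρ : ℂ) * w))‖ ≤
      21 / 10 := by
    rw [norm_mul]
    have h1 : ‖4 * (Real.pi : ℂ) ^ 2 / w ^ 2‖ = X * ρ / w.re := by
      rw [norm_div, norm_mul, norm_pow, norm_pow, Complex.norm_real,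
        Real.norm_of_nonneg Real.pi_pos.le, hX]
      simp only [Complex.norm_ofNat]
      have hre0 : 0 < w.re := by linarith
      have hwn : 0 < ‖w‖ := by linarith
      field_simp
    have h2 : X * ρ / w.re ≤ 446154 / 100000 * X := by
      rw [div_le_iff₀ (by linarith)]
      have : X * ρ ≤ X * (29 / 10) := mul_le_mul_of_nonneg_left hρ2 (by linarith)
      nlinarith
    have h3 : X * Real.exp (-X) ≤ 10 / 27 := by
      have h4 := Real.add_one_le_exp (X - 1)
      have h5 : Real.exp (-X) * Real.exp (X - 1) * Real.exp 1 = 1 := by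
        rw [← Real.exp_add, ← Real.exp_add, show -X + (X - 1) + 1 = 0 by ring, Real.exp_zero]
      have h6 := Real.exp_one_gt_d9
      have h7 := Real.exp_pos (-X)
      have h8 : X * Real.exp (-X) ≤ Real.exp (-X) * Real.exp (X - 1) := by nlinarith
      have h9 : 0 < Real.exp (-X) * Real.exp (X - 1) := by positivity
      nlinarith
    rw [h1]
    have hXρ : 0 ≤ X * ρ / w.re := by
      have hre0 : 0 < w.re := by linarith
      positivity
    calc X * ρ / w.re * ‖E (4 * (Real.pi : ℂ) ^ 2 / ((ρ : ℂ) * w))‖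
        ≤ X * ρ / w.re * (5 / 4 * Real.exp (-X)) := mul_le_mul_of_nonneg_left hE hXρ
      _ ≤ 446154 / 100000 * X * (5 / 4 * Real.exp (-X)) :=
          mul_le_mul_of_nonneg_right h2 (by positivity)
      _ = 446154 / 100000 * (5 / 4) * (X * Real.exp (-X)) := by ring
      _ ≤ 446154 / 100000 * (5 / 4) * (10 / 27) := mul_le_mul_of_nonneg_left h3 (by norm_num)
      _ ≤ 21 / 10 := by norm_num
  rw [hform]
  have h1 := norm_sub_le ((Real.pi : ℂ) ^ 2 / (6 * w ^ 2) - (ρ : ℂ) / (2 * w) + (ρ : ℂ) ^ 2 / 24)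
    (4 * (Real.pi : ℂ) ^ 2 / w ^ 2 * E (4 * (Real.pi : ℂ) ^ 2 / ((ρ : ℂ) * w)))
  have h2 := norm_add_le ((Real.pi : ℂ) ^ 2 / (6 * w ^ 2) - (ρ : ℂ) / (2 * w)) ((ρ : ℂ) ^ 2 / 24)
  have h3 := norm_sub_le ((Real.pi : ℂ) ^ 2 / (6 * w ^ 2)) ((ρ : ℂ) / (2 * w))
  linarith

theorem t_LOC (hS : S_SER) (hB : S_BND) (hM : S_MODE) (hN : S_N2) : S_LOC := by
  intro ρ u0 hρ hρ2 hu hu2 hre0
  set f : ℂ → ℂ := e ρ with hf
  set w0 : ℂ := 1 + (u0 : ℂ) * I with hw0
  have hopen : IsOpen {w : ℂ | 0 < w.re} := isOpen_lt continuous_const Complex.continuous_re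
  have hfd : DifferentiableOn ℂ f {w : ℂ | 0 < w.re} := by
    intro w hw
    have hw' : 0 < w.re := hw
    have h1 : DifferentiableAt ℂ E ((ρ : ℂ) * w) := by
      refine ((hS.1 ((ρ : ℂ) * w) ?_).2.2).2
      rw [Complex.re_ofReal_mul]; positivity
    have h2 : DifferentiableAt ℂ (fun w : ℂ => E ((ρ : ℂ) * w)) w := by
      have h3 : DifferentiableAt ℂ (fun w : ℂ => (ρ : ℂ) * w) w := by fun_prop
      exact DifferentiableAt.comp w h1 h3
    exact (h2.const_mul ((ρ : ℂ) ^ 2)).differentiableWithinAt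
  have hfd' : DifferentiableOn ℂ (deriv f) {w : ℂ | 0 < w.re} := hfd.deriv hopen
  have hM8 : ∀ w : ℂ, ‖w - w0‖ ≤ 35 / 100 → ‖f w‖ ≤ 8 := fun w hw =>
    e_bound hB hM ρ u0 hρ hρ2 hu hu2 w hw
  have hre : ∀ w : ℂ, ‖w - w0‖ ≤ 35 / 100 → 0 < w.re := by
    intro w hw
    have h1 := (Complex.abs_re_le_norm (w - w0)).trans hw
    have h2 : (w - w0).re = w.re - 1 := by simp [hw0]
    rw [h2] at h1
    have := (abs_le.mp h1).1
    linarith
  -- first derivative
  have hder1 : ‖deriv f w0‖ ≤ 8 / (35 / 100) := by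
    refine norm_deriv_le_of_forall_mem_sphere_norm_le (by norm_num) ?_ ?_
    · refine (hfd.mono ?_).diffContOnCl_ball (U := closedBall w0 (35 / 100)) le_rfl
      intro w hw
      exact hre w (by simpa [dist_eq_norm] using hw)
    · intro w hw
      refine hM8 w ?_
      have : dist w w0 = 35 / 100 := hw
      rw [dist_eq_norm] at this
      exact this.le
  -- the points of the vertical line
  have hline : ∀ v : ℝ, |v| ≤ 1 / 10 → ∀ w : ℂ, ‖w - (w0 + (v : ℂ) * I)‖ ≤ 1 / 4 →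
      ‖w - w0‖ ≤ 35 / 100 := by
    intro v hv w hw
    have h1 : w - w0 = (w - (w0 + (v : ℂ) * I)) + (v : ℂ) * I := by ring
    have h2 : ‖(v : ℂ) * I‖ = |v| := by simp
    rw [h1]
    refine (norm_add_le _ _).trans ?_
    rw [h2]
    linarith
  have hder2 : ∀ v : ℝ, |v| ≤ 1 / 10 → ‖deriv (deriv f) (w0 + (v : ℂ) * I)‖ ≤ 256 := by
    intro v hv
    have h := norm_iteratedDeriv_le_of_forall_mem_sphere_norm_le (c := w0 + (v : ℂ) * I)
      (R := 1 / 4) (C := 8) (f := f) 2 (by norm_num) ?_ ?_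
    · have h1 : iteratedDeriv 2 f = deriv (deriv f) := by
        rw [iteratedDeriv_succ, iteratedDeriv_one]
      rw [h1] at h
      refine h.trans ?_
      norm_num [Nat.factorial]
    · refine (hfd.mono ?_).diffContOnCl_ball (U := closedBall (w0 + (v : ℂ) * I) (1 / 4)) le_rfl
      intro w hw
      exact hre w (hline v hv w (by simpa [dist_eq_norm] using hw))
    · intro w hw
      refine hM8 w (hline v hv w ?_)
      have : dist w (w0 + (v : ℂ) * I) = 1 / 4 := hw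
      rw [dist_eq_norm] at this
      exact this.le
  have hpt : ∀ v : ℝ, |v| ≤ 1 / 10 → 0 < (w0 + (v : ℂ) * I).re := by
    intro v _
    simp [hw0]
  have hcurve : ∀ v : ℝ, HasDerivAt (fun v : ℝ => w0 + (v : ℂ) * I) I v := by
    intro v
    have h1 : HasDerivAt (fun v : ℝ => (v : ℂ)) 1 v := Complex.ofRealCLM.hasDerivAt
    simpa using (h1.mul_const I).const_add w0
  have hd1 : ∀ v : ℝ, |v| ≤ 1 / 10 →
      HasDerivAt (fun v : ℝ => f (w0 + (v : ℂ) * I)) (deriv f (w0 + (v : ℂ) * I) * I) v := by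
    intro v hv
    have h1 : HasDerivAt f (deriv f (w0 + (v : ℂ) * I)) (w0 + (v : ℂ) * I) :=
      (hfd.differentiableAt (hopen.mem_nhds (hpt v hv))).hasDerivAt
    exact HasDerivAt.comp (h₂ := f) (h := fun v : ℝ => w0 + (v : ℂ) * I) v h1 (hcurve v)
  have hd2 : ∀ v : ℝ, |v| ≤ 1 / 10 →
      HasDerivAt (fun v : ℝ => deriv f (w0 + (v : ℂ) * I))
        (deriv (deriv f) (w0 + (v : ℂ) * I) * I) v := by
    intro v hv
    have h1 : HasDerivAt (deriv f) (deriv (deriv f) (w0 + (v : ℂ) * I)) (w0 + (v : ℂ) * I) :=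
      (hfd'.differentiableAt (hopen.mem_nhds (hpt v hv))).hasDerivAt
    exact HasDerivAt.comp (h₂ := deriv f) (h := fun v : ℝ => w0 + (v : ℂ) * I) v h1 (hcurve v)
  set a : ℂ := -I * deriv f w0 with ha
  refine ⟨a, ?_, ?_, ?_⟩
  · -- real part
    obtain ⟨T', hT', hT25⟩ := hN ρ u0 hρ hρ2 hu hu2
    have h1 := hd1 0 (by norm_num)
    have h2 : HasDerivAt (fun v : ℝ => f (w0 + ((v - u0 : ℝ) : ℂ) * I)) (deriv f w0 * I) u0 := by
      have h3 : HasDerivAt (fun v : ℝ => f (w0 + (v : ℂ) * I)) (deriv f w0 * I) (u0 - u0) := by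
        rw [sub_self]; simpa using h1
      have h4 : HasDerivAt (fun v : ℝ => v - u0) 1 u0 := (hasDerivAt_id u0).sub_const u0
      have h5 := HasDerivAt.scomp (h := fun v : ℝ => v - u0)
        (g₁ := fun v : ℝ => f (w0 + (v : ℂ) * I)) u0 h3 h4
      rw [one_smul] at h5
      exact h5
    have h3 : HasDerivAt (fun u : ℝ => (f (1 + (u : ℂ) * I)).re) (deriv f w0 * I).re u0 := by
      have h4 : (fun v : ℝ => f (w0 + ((v - u0 : ℝ) : ℂ) * I)) = fun u : ℝ => f (1 + (u : ℂ) * I) := by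
        funext v
        congr 1
        rw [hw0]; push_cast; ring
      rw [h4] at h2
      exact Complex.reCLM.hasFDerivAt.comp_hasDerivAt u0 h2
    have h4 : HasDerivAt (fun u : ℝ => 24 * (1 + u ^ 2) ^ 2)
        (24 * (2 * (1 + u0 ^ 2) * (2 * u0))) u0 := by
      have h5 : HasDerivAt (fun u : ℝ => 1 + u ^ 2) (2 * u0) u0 := by
        simpa using (hasDerivAt_pow 2 u0).const_add 1
      have h6 := (h5.pow 2).const_mul 24
      refine h6.congr_deriv ?_
      push_cast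
      ring
    have h5 := h4.mul h3
    have h6 : HasDerivAt (T ρ) (24 * (2 * (1 + u0 ^ 2) * (2 * u0)) * (f (1 + (u0 : ℂ) * I)).re +
        24 * (1 + u0 ^ 2) ^ 2 * (deriv f w0 * I).re) u0 := h5
    have h7 := hT'.unique h6
    rw [hre0, mul_zero, zero_add] at h7
    have h8 : (deriv f w0 * I).re = -a.re := by
      rw [ha]; simp
    rw [h8] at h7
    have h9 : (1 + u0 ^ 2) ^ 2 ≤ (2.1025) ^ 2 :=
      pow_le_pow_left₀ (by positivity) (by nlinarith) 2
    have h10 : 25 ≤ 24 * (1 + u0 ^ 2) ^ 2 * a.re := by linarith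
    by_contra hc
    push Not at hc
    have h11 : 0 < a.re := by
      by_contra h12
      push Not at h12
      nlinarith [sq_nonneg (1 + u0 ^ 2)]
    have h12 : 24 * (1 + u0 ^ 2) ^ 2 * a.re ≤ 24 * (2.1025) ^ 2 * (23 / 100) :=
      mul_le_mul (by linarith) hc.le h11.le (by norm_num)
    norm_num at h12
    linarith
  · rw [ha, norm_mul, norm_neg, Complex.norm_I, one_mul]
    refine hder1.trans ?_
    norm_num
  · -- the expansion
    have hF2 : ∀ v : ℝ, |v| ≤ 1 / 10 →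
        ‖(deriv f (w0 + (v : ℂ) * I) * I - deriv f w0 * I)‖ ≤ 256 * |v| ^ (0 + 1) := by
      refine pow_bound (fun v : ℝ => deriv f (w0 + (v : ℂ) * I) * I - deriv f w0 * I)
        (fun v : ℝ => deriv (deriv f) (w0 + (v : ℂ) * I) * I * I) 256 (1 / 10) 0 (by simp) ?_ ?_
      · intro v hv
        exact ((hd2 v hv).mul_const I).sub_const _
      · intro v hv
        have := hder2 v hv
        simp only [norm_mul, Complex.norm_I, mul_one, CharP.cast_eq_zero, zero_add, pow_zero]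
        exact this
    have hF1 : ∀ v : ℝ, |v| ≤ 1 / 10 →
        ‖f (w0 + (v : ℂ) * I) - f w0 - deriv f w0 * I * (v : ℂ)‖ ≤ 128 * |v| ^ (1 + 1) := by
      refine pow_bound (fun v : ℝ => f (w0 + (v : ℂ) * I) - f w0 - deriv f w0 * I * (v : ℂ))
        (fun v : ℝ => deriv f (w0 + (v : ℂ) * I) * I - deriv f w0 * I) 128 (1 / 10) 1 (by simp) ?_ ?_
      · intro v hv
        have h1 : HasDerivAt (fun v : ℝ => (v : ℂ)) 1 v := Complex.ofRealCLM.hasDerivAt
        have h2 := ((hd1 v hv).sub_const (f w0)).sub (h1.const_mul (deriv f w0 * I))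
        rw [mul_one] at h2
        exact h2
      · intro v hv
        have := hF2 v hv
        norm_num at this ⊢
        exact this
    have hF0 : ∀ v : ℝ, |v| ≤ 1 / 10 →
        ‖H ρ u0 v + a * (v : ℂ) ^ 2 / 2‖ ≤ 128 / 3 * |v| ^ (2 + 1) := by
      refine pow_bound (fun v : ℝ => H ρ u0 v + a * (v : ℂ) ^ 2 / 2)
        (fun v : ℝ => f (w0 + (v : ℂ) * I) - f w0 - deriv f w0 * I * (v : ℂ)) (128 / 3) (1 / 10) 2
        ?_ ?_ ?_
      · simp [H]
      · intro v hv
        have h1 : HasDerivAt (fun v : ℝ => (v : ℂ)) 1 v := Complex.ofRealCLM.hasDerivAt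
        have hz : 0 < (zp ρ (u0 + v)).re := by
          unfold zp
          rw [Complex.re_ofReal_mul]
          simpa using hρ
        have hG : HasDerivAt G (-E (zp ρ (u0 + v))) (zp ρ (u0 + v)) := (hS.1 _ hz).2.2.1
        have hzp : HasDerivAt (fun v : ℝ => zp ρ (u0 + v)) ((ρ : ℂ) * I) v := by
          have h2 : (fun v : ℝ => zp ρ (u0 + v)) =
              fun v : ℝ => (ρ : ℂ) * (w0 + (v : ℂ) * I) := by
            funext v
            unfold zp
            rw [hw0]; push_cast; ring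
          rw [h2]
          exact (hcurve v).const_mul (ρ : ℂ)
        have h3 : HasDerivAt (fun v : ℝ => G (zp ρ (u0 + v))) (-E (zp ρ (u0 + v)) * ((ρ : ℂ) * I)) v :=
          HasDerivAt.comp (h₂ := G) (h := fun v : ℝ => zp ρ (u0 + v)) v hG hzp
        have h4 := (h3.sub_const (G (zp ρ u0))).const_mul ((ρ : ℂ) * I)
        have h5 := h1.const_mul (e ρ (1 + (u0 : ℂ) * I))
        have h6 : HasDerivAt (fun v : ℝ => a * (v : ℂ) ^ 2 / 2) (a * (v : ℂ)) v := by
          have h7 := ((h1.pow 2).const_mul a).div_const 2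
          refine h7.congr_deriv ?_
          push_cast
          ring
        have h7 := (h4.sub h5).add h6
        refine h7.congr_deriv ?_
        have h8 : f (w0 + (v : ℂ) * I) = (ρ : ℂ) ^ 2 * E (zp ρ (u0 + v)) := by
          rw [hf]
          unfold e zp
          congr 2
          rw [hw0]; push_cast; ring
        rw [h8, ha]
        have hI : I * I = -1 := Complex.I_mul_I
        linear_combination (-(ρ : ℂ) ^ 2 * E (zp ρ (u0 + v))) * hI
      · intro v hv
        have := hF1 v hv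
        norm_num at this ⊢
        exact this
    intro v hv
    refine (hF0 v hv).trans ?_
    have : 0 ≤ |v| ^ 3 := by positivity
    norm_num
    nlinarith

end Pool.Agent.Q198.DA
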